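import Pool.Agent.TH684.SP.Law

/-!
# If `P ≠ PSPACE`, nothing can be said about the answers to polynomially many `PSPACE` questions

Polynomial time is Mathlib's `Turing.TM2ComputableInPolyTime`, for functions on bit strings, and
polynomial space (`InPSPACE`) is measured on the same machines; `PSPACEHard` is hardness under
polynomial-time many-one reductions.

Exclusion. Let `A` be `PSPACE`-hard, and consider `m` questions `x₁ ∈ A`, ..., `x_m ∈ A` for strings
of length at most `n`, where `m = m (n)` is any number at most polynomial in `n`. Suppose that a
polynomial-time algorithm (with `O(log n)` bits of advice) excludes one member of a strongly explicit
family of polynomially many vectors as the vector of the answers, whenever it gets such a list: for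
instance one of the possible values of the number of members of `A` in the list, or an index `i`
for which it is not the case that `x_i` is the only member. Then `P = PSPACE`.

Threshold gates. If some `PSPACE`-hard set is decided by one threshold gate, or by one polynomial
inequality of bounded degree, with arbitrary real weights (or coefficients) for every length and
polynomial-time computable integer vectors as inputs, then `P = PSPACE`.

Proof. For every function `x ↦ w` computable in polynomial space there are candidate lists: the
prefixes of `w` are found in a search tree. For each seed `s` of a pairwise independent family of
hash functions from strings to the numbers of the vectors of the family, the questions are: is the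
entry `i` of the vector with the number `hash s (prefix of length j of w)` equal to one? The vector of
answers is the vector with the number `hash s v` if `v` is the right prefix. The algorithm excludes a
number `r s`, so `v` can be discarded if `hash s v = r s`. If `F` bounds the numbers then among more
than `2 F ^ 2` strings there is always one that is discarded for some seed. So `w` is in a list of
polynomial length computed in polynomial time. Candidate lists for all functions computable in
polynomial space give `P = PSPACE`: the values of the partial expressions of an arithmetized
quantified formula on lines can be found one after another (`Pool.Agent.W920.LS.inP_of_cands`).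

A threshold gate excludes a row of a Hadamard matrix: the polynomial-time form of Forster's theorem
on sign-rank, `Pool.Agent.TH684.LT.exc_of_gate`, proved for `MP_8a52c3_lc.ArbitraryWeightGate`.
-/

set_option autoImplicit false

namespace Pool.Agent.Results.MP_f404b1_lc.ArbitraryWeightGate

open Pool.Agent.NPC Pool.Agent.H623R2.PS Pool.Agent.TH684.EX Pool.Agent.TH684.LT

/-- **Exclusion and threshold gates for `PSPACE`.** The following are equivalent: `P = PSPACE`; one
vector of some strongly explicit family can be excluded as the vector of answers for some
`PSPACE`-hard set; one value of the number of members can be excluded for some `PSPACE`-hard set; the
number of members can be computed with `⌊log₂ m⌋` questions to some oracle; one can find an index `i`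
such that the string number `i` is not the only member; from any given family that is not constant
one can always find a vector that is not the vector of answers, for all sets in `PSPACE`; some
`PSPACE`-hard set is decided by one polynomial threshold gate of bounded degree; all sets in `PSPACE`
are decided by one threshold gate. -/
theorem result : List.TFAE
    [∀ L : Set (List Bool), InPSPACE L → InP L,
      ∃ A L : Set (List Bool), PSPACEHard A ∧ InP L ∧ Feasible (Exclude L A),
      ∃ A : Set (List Bool), PSPACEHard A ∧ Feasible (ExcludeCount A),
      ∃ A : Set (List Bool), PSPACEHard A ∧ CountQuestions A,
      ∃ A : Set (List Bool), PSPACEHard A ∧ Feasible (NotOnly A),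
      ∀ (A L : Set (List Bool)) (q : Polynomial ℕ), InPSPACE A → InP L →
        (∀ m ≥ 1, ∃ l ≤ q.eval m, vec L m l ≠ vec L m 0) →
        ∃ X : List Bool → ℕ, PolyTime (fun z => bits (X z)) ∧ ∀ qs : List (List Bool), qs ≠ [] →
          X (bits qs) ≤ q.eval qs.length ∧ Exclude L A qs (X (bits qs)),
      ∃ (A : Set (List Bool)) (k : ℕ), PSPACEHard A ∧ OnePolynomialGate k A,
      ∀ A : Set (List Bool), InPSPACE A → OneThresholdGate A] :=
  Pool.Agent.TH684.SP.pspace_tfae

end Pool.Agent.Results.MP_f404b1_lc.ArbitraryWeightGate
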