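import Pool.Agent.TH680.DT.Law
import Pool.Agent.TH680.DT.Empty
import Pool.Agent.H620R2.Gauge2.Defs
import Pool.Agent.H620R2.Gauge.U1

/-!
# `P` versus `PSPACE` relative to random oracles: the exact threshold for the density

Bennett and Gill (1981): `P^A ≠ NP^A` for almost every oracle `A`, tossed with fair coins. Here
the strings are put into `A` independently with a probability that depends on the length only: every
string of length `n` with probability `q n`, where `q` is an arbitrary function (`rand q` is the
distribution of `A`). Let `rare q n = 2 ^ n * min (q n) (1 - q n)`, the expected number of the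
strings of length `n` for which `A` has the less probable value.

(1) If the series `∑ rare q n` diverges then `P^A ≠ NP^A`, in particular `P^A ≠ PSPACE^A`, for almost
all `A`.

(2) If the series converges then, for almost all `A`, the oracle `A` is as good as the oracle
`common q` of the more probable values: the same functions are computable in polynomial time, and
the same languages are decidable in polynomial space, relative to `A` and relative to `common q`.

(3) Therefore, if `common q` is in `P` (for example if `q n ≤ 1 / 2` for all `n`, so that it is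
empty): for almost all `A`, `P^A ≠ PSPACE^A` if and only if the series diverges or `P ≠ PSPACE`; and
`P^A ≠ NP^A` if and only if the series diverges or `P ≠ NP`.

So there is a law for all these random oracles: the separation holds unconditionally, or it is
equivalent to the unrelativized one, and the divergence of the series decides which. The separation
starts long before the expected numbers become large: they may be `1 / n` (and even `0` for most
`n`), so that relative to almost all `A` most of the lengths have no string at all.

The proof of (1): if `rare q` is not bounded by a polynomial, then the polynomial hierarchy is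
infinite relative to `A` (folder `Pool/Agent/TH680/IE`). Otherwise, let `b` be a value which is the
more probable one for infinitely many lengths whose series diverges. By Borel and Cantelli, for
infinitely many of these lengths `n` there is a string of length `n` whose bit of `A` is not `b`. If
`P^A = NP^A` then the polynomial hierarchy relative to `A` collapses to `P^A`; so some algorithm
finds the first of these strings, given `n`; but the algorithm asks `A` polynomially many questions
only, and the strings that are unusual in `A` are too rare to be hit by one of these questions, or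
by its output, for infinitely many `n`.
-/

set_option autoImplicit false

namespace Pool.Agent.Results.MP_f404b1_lc.DensityThreshold

open MeasureTheory Pool.Agent.NPC Pool.Agent.H620R2.Gauge
open Pool.Agent.H591R3.PHG (IsSig)
open Pool.Agent.W900.IE (indep)

/-- The distribution of the random oracle: the strings `x` are in the oracle with probability
`q |x|`, independently. -/
noncomputable def rand (q : ℕ → unitInterval) : Measure Oracle := indep (fun x => q x.length)

/-- The expected number of the strings of length `n` for which the random oracle has the less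
probable value. -/
noncomputable def rare (q : ℕ → unitInterval) (n : ℕ) : ℝ := 2 ^ n * min (q n : ℝ) (1 - q n)

/-- The oracle of the more probable values. -/
noncomputable def common (q : ℕ → unitInterval) : Oracle := fun x =>
  decide ((1 / 2 : ℝ) < q x.length)

/-- The empty oracle. -/
def empty : Oracle := fun _ => false

theorem rare_eq (q : ℕ → unitInterval) : W900.IE.dev (TH680.DT.pq q) = rare q := by
  funext n
  unfold W900.IE.dev TH680.DT.pq rare
  have h : ∀ v : Fin n → Bool, min (q (List.ofFn v).length : ℝ) (1 - q (List.ofFn v).length) =
      min (q n : ℝ) (1 - q n) := fun v => by rw [List.length_ofFn]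
  rw [Finset.sum_congr rfl fun v _ => h v, Finset.sum_const, nsmul_eq_mul, Finset.card_univ]
  simp

theorem isSig_zero {A : Oracle} {L : Set (List Bool)} : IsSig A 0 L ↔ IsP A L :=
  ⟨fun ⟨V, _, hV, h⟩ => ⟨V, hV, h⟩, fun ⟨V, hV, h⟩ => ⟨V, 0, hV, h⟩⟩

/-- **`P` versus `PSPACE` relative to random oracles: the threshold for the density.** -/
theorem result (q : ℕ → unitInterval) :
    (¬ Summable (rare q) → ∀ᵐ A ∂(rand q), ∃ L, IsNP A L ∧ ¬ IsP A L) ∧
    (Summable (rare q) → ∀ᵐ A ∂(rand q),
      (∀ F, IsFP A F ↔ IsFP (common q) F) ∧ ∀ L, IsPSPACE A L ↔ IsPSPACE (common q) L) ∧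
    (IsP empty {x | common q x = true} → ∀ᵐ A ∂(rand q),
      ((∃ L, IsPSPACE A L ∧ ¬ IsP A L) ↔
        (¬ Summable (rare q) ∨ ∃ L, IsPSPACE empty L ∧ ¬ IsP empty L)) ∧
      ((∃ L, IsNP A L ∧ ¬ IsP A L) ↔
        (¬ Summable (rare q) ∨ ∃ L, IsNP empty L ∧ ¬ IsP empty L))) := by
  have hspace : ∀ {A : Oracle} {L : Set (List Bool)}, IsNP A L → IsPSPACE A L := by
    intro A L h
    have h1 : IsSig A 1 L := h
    exact h1.isPH.isPSPACE
  have h1 : ¬ Summable (rare q) → ∀ᵐ A ∂(rand q), ∃ L, IsNP A L ∧ ¬ IsP A L := by
    intro h
    rw [← rare_eq] at h
    filter_upwards [TH680.DT.ae_sep h] with A hA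
    obtain ⟨L, hL, hL'⟩ := hA
    exact ⟨L, hL, fun h => hL' (isSig_zero.2 h)⟩
  have h2 : Summable (rare q) → ∀ᵐ A ∂(rand q), Poly (fun x => (A x ^^ common q x)) := by
    intro h
    rw [← rare_eq] at h
    exact TH680.DT.ae_same h
  refine ⟨h1, fun h => ?_, fun hq => ?_⟩
  · filter_upwards [h2 h] with A hA
    have h3 : ∀ x, common q x = (A x ^^ (A x ^^ common q x)) := fun x => by
      cases A x <;> cases common q x <;> rfl
    exact ⟨TH680.DT.same_isFP hA h3, TH680.DT.same_isPSPACE hA h3⟩
  · have hc : Poly (common q) := by
      obtain ⟨V, hV, hL⟩ := hq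
      have h3 := TH680.DT.poly_of_isFP_empty hV
      refine (Poly.decide_eq h3 (NPC.Poly.const [true])).congr fun x => ?_
      have h4 := hL x
      rw [Set.mem_ofPred_eq] at h4
      rw [Bool.eq_iff_iff, h4, decide_eq_true_eq]
    by_cases h : Summable (rare q)
    · filter_upwards [h2 h] with A hA
      have hAP : Poly A := (Poly.xor hA hc).congr fun x => by
        cases A x <;> cases common q x <;> rfl
      have h3 : ∀ x, empty x = (A x ^^ A x) := fun x => by unfold empty; cases A x <;> rfl
      have hF := TH680.DT.same_isFP hAP h3
      have hS := TH680.DT.same_isPSPACE hAP h3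
      have hP : ∀ L, IsP A L ↔ IsP empty L := fun L =>
        ⟨fun ⟨V, hV, h⟩ => ⟨V, (hF V).1 hV, h⟩, fun ⟨V, hV, h⟩ => ⟨V, (hF V).2 hV, h⟩⟩
      have hN : ∀ L, IsNP A L ↔ IsNP empty L := fun L =>
        ⟨fun ⟨V, p, hV, h⟩ => ⟨V, p, (hF V).1 hV, h⟩, fun ⟨V, p, hV, h⟩ => ⟨V, p, (hF V).2 hV, h⟩⟩
      constructor
      · constructor
        · rintro ⟨L, hL, hL'⟩
          exact Or.inr ⟨L, (hS L).1 hL, fun h' => hL' ((hP L).2 h')⟩
        · rintro (h' | ⟨L, hL, hL'⟩)
          · exact absurd h h'
          · exact ⟨L, (hS L).2 hL, fun h' => hL' ((hP L).1 h')⟩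
      · constructor
        · rintro ⟨L, hL, hL'⟩
          exact Or.inr ⟨L, (hN L).1 hL, fun h' => hL' ((hP L).2 h')⟩
        · rintro (h' | ⟨L, hL, hL'⟩)
          · exact absurd h h'
          · exact ⟨L, (hN L).2 hL, fun h' => hL' ((hP L).1 h')⟩
    · filter_upwards [h1 h] with A hA
      obtain ⟨L, hL, hL'⟩ := hA
      exact ⟨⟨fun _ => Or.inl h, fun _ => ⟨L, hspace hL, hL'⟩⟩,
        ⟨fun _ => Or.inl h, fun _ => ⟨L, hL, hL'⟩⟩⟩

end Pool.Agent.Results.MP_f404b1_lc.DensityThreshold
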