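import Pool.Agent.W901.FH.Law

/-!
# `P = PSPACE` and the prediction of answers: how many help bits give how much advantage

Polynomial time is Mathlib's `Turing.TM2ComputableInPolyTime`, for functions on bit strings, and
polynomial space (`InPSPACE`) is measured on the same machines; `PSPACEHard` is hardness under
polynomial-time many-one reductions.

Let a deterministic polynomial-time algorithm make predictions for the answers to the `m` questions
whether `y` is in `A`, `y` in a list of `m` strings; it may abstain on some of them. How much can the
number of right predictions differ from the number of wrong ones, for every list, if the algorithm
gets in addition `k` bits of help, which may depend on the list in any way?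

`Help k t ε A`: the difference is at least `t` on all lists of `m ≥ m₀` strings of length at most
`m ^ ε`; `HelpAll k t A`: the same on all lists of `m ≥ m₀` strings.

There is a constant `C` such that for all `k`, `t` with `t ^ 2 ≥ C * 2 ^ k` or
`t ^ 2 ≥ (k + 1) * 2 ^ (k + 1)` and all `ε > 0`

`PSPACE = P` iff `Help k t ε A` for some `PSPACE`-hard set `A` iff `HelpAll k t A` for all `A` in
`PSPACE`,

while `HelpAll k t A` holds for all sets `A` whatsoever if `(t - 1) ^ 2 < 2 ^ k`. So without help
(`k = 0`) the difference `1` is free and the difference `2` gives `P = PSPACE`; with one bit of help
the difference `2` is free and `3` gives `P = PSPACE`.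

Proof. Functions computable in polynomial space have polynomially long candidate lists: the prefixes
of the value are found in a search tree, where a prefix survives only if for all seeds of a hash
function the `K = 2 ^ k` vectors of predictions for its label questions are compatible with its
label. The labels are all sign vectors with at most `K` changes of sign, up to `K` further
exceptional entries: polynomially many. By the theorem of Borsuk and Ulam (in the form of Hobby and
Rice) there is a step function with `K` jumps which is orthogonal to all `K` vectors, and by
Spencer's theorem (linear discrepancy) its at most `K` fractional entries can be rounded such that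
all `K` scalar products are smaller than `C * √ K`. So for each seed one label is incompatible;
pairwise independent hashing of more than `2 * F ^ 2` prefixes to `F` labels hits the incompatible
label for some seed. The truth of a quantified formula is the value of an arithmetized expression;
the candidate lists for the restrictions of the partial expressions to lines give its value in
polynomial time.

Free advantage: the rows of a Hadamard matrix, by Parseval's equation.

The theorem is `help_law_pspace` of the starting file `Pool/Agent/W901/FH/Law.lean`, which had not
been handed in.
-/

set_option autoImplicit false

namespace Pool.Agent.Results.MP_f404b1_lc.HelpBitsLaw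

open Pool.Agent.NPC Pool.Agent.H579R2.Spt Pool.Agent.H623R2.PS Pool.Agent.W901.FH

/-- **The law of help bits for `P` and `PSPACE`.** -/
theorem result : ∃ C : ℕ, ∀ (k t : ℕ) (ε : ℝ),
    (0 < ε → C * 2 ^ k ≤ t ^ 2 ∨ (k + 1) * 2 ^ (k + 1) ≤ t ^ 2 → List.TFAE
      [∀ L : Set (List Bool), InPSPACE L → InP L,
        ∃ A : Set (List Bool), PSPACEHard A ∧ Help k t ε A,
        ∀ A : Set (List Bool), InPSPACE A → HelpAll k t A]) ∧
    ((t - 1) ^ 2 < 2 ^ k → ∀ A : Set (List Bool), HelpAll k t A) :=
  help_law_pspace

end Pool.Agent.Results.MP_f404b1_lc.HelpBitsLaw
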