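import Pool.Agent.W903.GP.Groups

/-!
# `P = PSPACE` as a statement about groups of permutations

`GrpP` is the group of the length-preserving permutations of the set of all bit strings which are
computable in polynomial time together with their inverse, `GrpS` is the group of those whose graph
is in `PSPACE`, and `AutP` is the group of all permutations of the set of bit strings which are
computable in polynomial time together with their inverse.

`P = PSPACE` if and only if every element of `GrpP` is conjugate to its inverse in `GrpP`, if and
only if every element of `GrpP` is a product of two involutions of `GrpP`, if and only if every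
element of `GrpP` is conjugate to its inverse in `AutP`, if and only if the groups `GrpP` and `GrpS`
are isomorphic as abstract groups. In `GrpS` every element is inverted by an involution.

(The proof is in the library folder `Pool/Agent/W903/GP` of the starting repository; this file hands
it in. A reversible clocked machine together with its time-reversed copy gives a permutation in
`GrpP` such that every conjugating permutation tells whether the machine accepts. In `GrpS` one can
find the least element of a cycle and reflect the cycle in it.)
-/

set_option autoImplicit false

namespace Pool.Agent.Results.MP_f404b1_lc.PermutationGroups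

open Pool.Agent.NPC Pool.Agent.NPC.PIso Pool.Agent.W903.GP

/-- **`P = PSPACE` as a statement about groups.** There are groups `G`, `S`, `A` of permutations of
the set of bit strings (under composition), `G`: length-preserving and computable in polynomial time
together with the inverse, `S`: length-preserving with graph in `PSPACE`, `A`: computable in
polynomial time together with the inverse; every element of `S` is inverted by an involution in `S`;
and the five statements are equivalent. -/
theorem result : ∃ G S A : Subgroup (Equiv.Perm (List Bool)),
    (∀ f : Equiv.Perm (List Bool), f ∈ G ↔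
      (∀ x, (f x).length = x.length) ∧ PolyTime ⇑f ∧ PolyTime ⇑f⁻¹) ∧
    (∀ f : Equiv.Perm (List Bool), f ∈ S ↔
      (∀ x, (f x).length = x.length) ∧ InPSPACE (graph ⇑f)) ∧
    (∀ f : Equiv.Perm (List Bool), f ∈ A ↔ PolyTime ⇑f ∧ PolyTime ⇑f⁻¹) ∧
    (∀ f ∈ S, ∃ s ∈ S, s * s = 1 ∧ s * f * s⁻¹ = f⁻¹) ∧
    List.TFAE [
      ∀ L : Set (List Bool), InPSPACE L ↔ InP L,
      ∀ f ∈ G, ∃ s ∈ G, s * f * s⁻¹ = f⁻¹,
      ∀ f ∈ G, ∃ a ∈ G, ∃ b ∈ G, a * a = 1 ∧ b * b = 1 ∧ f = a * b,
      ∀ f ∈ G, ∃ s ∈ A, s * f * s⁻¹ = f⁻¹,
      Nonempty (G ≃* S)] :=
  ⟨GrpP, GrpS, AutP, fun _ => Iff.rfl, fun _ => Iff.rfl, fun _ => Iff.rfl,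
    fun _ hf => exists_mirror hf, main_tfae⟩

end Pool.Agent.Results.MP_f404b1_lc.PermutationGroups
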